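import Mathlib
import Pool.Agent.Helper34.ZP.G8
import Pool.Agent.Helper34.ZP.NilLaw

/-!
# The zero-one law: a rate which depends only on the Betti number and on the power
-/

universe u v w t

open CategoryTheory TensorProduct

namespace Pool.Agent.Helper13.ZP

open Pool.Agent.Helper10 Pool.Agent.Helper11.Iso SmProjVar SPre Pool.Agent.Helper34.ZP

variable {k : Type u} [Field k] {K : Type t} [Field K] {Ω : Type v} [Field Ω] [Algebra K Ω]
  {P : SPre.{u, v, w, t} k K Ω}

/-- the sum of the layers, with nilpotence only where it is needed -/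
lemma layers' [CharZero Ω] {Z : SmProjVar k} {z : P.H Z} (hz : P.rad Z z) (hz0 : z ≠ 0)
    (Y : SmProjVar k) (n : ℕ)
    (hnil : ∀ i < n, ∀ x ∈ Nul P (Z.selfProd i) (Z.selfProd i),
      IsNilpotent (x : Module.End Ω (P.H (Z.selfProd i)))) :
    Module.finrank Ω (cyc P (zpow z n) (Y.prod Y)) + (nr P (Y.prod Y) +
      ∑ i ∈ Finset.range n, nr P ((Z.selfProd i).prod (Y.prod Y))) ≤ hr P (Y.prod Y) +
        ∑ i ∈ Finset.range n, (Module.finrank Ω (P.H (Z.selfProd i)) - 1) *
          nr P (Y.prod Y) := by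
  induction n with
  | zero =>
    have h := layer_zero hz (Y.prod Y)
    rw [Finset.sum_range_zero, Finset.sum_range_zero, add_zero, add_zero]
    exact h
  | succ n ih =>
    have ih := ih fun i hi => hnil i (by omega)
    have h := layer (zpow_mem hz.1 n) (zpow_ne_zero hz0 n) hz (hnil n (by omega)) Y
    have h' : Module.finrank Ω (cyc P (zpow z (n + 1)) (Y.prod Y)) +
        nr P ((Z.selfProd n).prod (Y.prod Y)) ≤
        Module.finrank Ω (cyc P (zpow z n) (Y.prod Y)) +
          (Module.finrank Ω (P.H (Z.selfProd n)) - 1) * nr P (Y.prod Y) := h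
    rw [Finset.sum_range_succ, Finset.sum_range_succ]
    omega

/-- D fails for an even power -/
lemma exists_even' {X : SmProjVar k} {n : ℕ} (hn : ¬ P.D (X.selfProd n)) :
    ∃ z : P.H (X.selfProd (2 * n + 1)), P.rad _ z ∧ z ≠ 0 := by
  have h1 : Retract (X.selfProd n) (X.selfProd (2 * n + 1)) := by
    have h2 : Retract (X.selfProd n) ((X.selfProd n).prod (X.selfProd n)) :=
      ⟨lift (𝟙 _) (𝟙 _), fst _ _, lift_fst _ _⟩
    have h3 := h2.trans (Retract.pow_prod_pow X n n)
    rwa [← two_mul] at h3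
  by_contra hcon
  push Not at hcon
  exact hn (SPre.D.retract h1 fun z hz => hcon z hz)

/-- the alternative up to a given level -/
lemma even_data' [CharZero Ω] (X : SmProjVar k) {n : ℕ} (hD : ¬ P.D (X.selfProd n)) (I : ℕ) :
    (∃ i ≤ I, ∀ l, nr P (X.selfProd (2 * (l + (n + 1) * (i + 1)) + 1)) ≤
      (Module.finrank Ω (P.H X) ^ (2 * (n + 1) * (i + 1)) - 1) *
        nr P (X.selfProd (2 * l + 1))) ∨
    ∀ k0 ≤ I, ∀ l, nr P (X.selfProd (2 * l + 1)) +
      ∑ k ∈ Finset.range k0, nr P (X.selfProd (2 * (l + (n + 1) * (k + 1)) + 1)) ≤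
        hr P (X.selfProd (2 * l + 1)) + ∑ k ∈ Finset.range k0,
          (Module.finrank Ω (P.H X) ^ (2 * (n + 1) * (k + 1)) - 1) *
            nr P (X.selfProd (2 * l + 1)) := by
  obtain ⟨z, hz, hz0⟩ := exists_even' hD
  have hfin : ∀ i, Module.finrank Ω (P.H ((X.selfProd (2 * n + 1)).selfProd i)) =
      Module.finrank Ω (P.H X) ^ (2 * (n + 1) * (i + 1)) := by
    intro i
    rw [finrank_selfProd, finrank_selfProd, ← pow_mul]
    congr 1
  have hnr : ∀ i l, nr P (((X.selfProd (2 * n + 1)).selfProd i).prod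
      ((X.selfProd l).prod (X.selfProd l))) =
      nr P (X.selfProd (2 * (l + (n + 1) * (i + 1)) + 1)) := by
    intro i l
    rw [nr_pow_pow]
    congr 2
    ring
  by_cases hnil : ∀ i ≤ I, ∀ x ∈ Nul P ((X.selfProd (2 * n + 1)).selfProd i)
      ((X.selfProd (2 * n + 1)).selfProd i),
      IsNilpotent (x : Module.End Ω (P.H ((X.selfProd (2 * n + 1)).selfProd i)))
  · refine .inr fun k0 hk l => ?_
    have h := layers' hz hz0 (X.selfProd l) k0 fun i hi => hnil i (by omega)
    have e3 : l + l + 1 = 2 * l + 1 := by ring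
    rw [nr_pow_prod_pow, hr_pow_prod_pow, e3] at h
    simp only [hfin, hnr] at h
    exact (Nat.le_add_left _ _).trans h
  · push Not at hnil
    obtain ⟨i, hi, x, hx, hx'⟩ := hnil
    refine .inl ⟨i, hi, fun l => ?_⟩
    have h := nr_prod_le_of_not_nil _ (X.selfProd l) hx hx'
    have e3 : l + l + 1 = 2 * l + 1 := by ring
    rw [hnr, nr_pow_prod_pow, hfin, e3] at h
    exact h

/-- the numeric statement -/
def UniformRate : Prop :=
  ∀ (b d s : ℕ), 1 ≤ b → 1 ≤ s → ∃ C : ℝ, 0 < C ∧ ∀ a c : ℕ → ℕ, (∀ l, 1 ≤ c l) →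
    (∀ l, c l ≤ b ^ (2 * (l + 1))) → (∀ l, c (l + 1) ^ 2 ≤ c l * c (l + 2)) →
    (∀ l, b ^ (2 * l) ≤ a l * (l + 2) ^ d) →
    (∀ I, (∃ i ≤ I, ∀ l, c (l + s * (i + 1)) ≤ (b ^ (2 * s * (i + 1)) - 1) * c l) ∨
      (∀ k0 ≤ I, ∀ l, c l + ∑ k ∈ Finset.range k0, c (l + s * (k + 1)) ≤
        a l + ∑ k ∈ Finset.range k0, (b ^ (2 * s * (k + 1)) - 1) * c l)) →
    ∀ l, (c l : ℝ) * Real.log (l + 2) ≤ C * a l

/-- from the even powers to all powers -/
lemma all_of_even [CharZero Ω] (hpt : ∀ Y, 1 ≤ nr P Y) (X : SmProjVar k) {C : ℝ} (hC : 0 < C)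
    (h : ∀ l : ℕ, (nr P (X.selfProd (2 * l + 1)) : ℝ) * Real.log (l + 2) ≤
      C * hr P (X.selfProd (2 * l + 1))) (n : ℕ) :
    (nr P (X.selfProd n) : ℝ) * Real.log (n + 2) ≤
      (2 * C * Module.finrank Ω (P.H X) + 1 + Real.log 2 * Module.finrank Ω (P.H X)) *
        hr P (X.selfProd n) := by
  have hb : (1 : ℝ) ≤ Module.finrank Ω (P.H X) := by exact_mod_cast one_le_finrank hpt X
  have hlog2 : 0 < Real.log 2 := Real.log_pos one_lt_two
  -- comparison of the logarithms
  have hlog : ∀ l n : ℕ, n ≤ 2 * l + 2 → Real.log (n + 2) ≤ 2 * Real.log (l + 2) := by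
    intro l n hn
    have hn' : (n : ℝ) ≤ 2 * l + 2 := by exact_mod_cast hn
    have hl : (0 : ℝ) ≤ l := Nat.cast_nonneg l
    have h1 : 2 * Real.log (l + 2 : ℝ) = Real.log ((l + 2) ^ 2) := by
      rw [Real.log_pow]; norm_num
    rw [h1]
    refine Real.log_le_log (by positivity) ?_
    nlinarith
  have hnn : ∀ Y : SmProjVar k, (0 : ℝ) ≤ nr P Y := fun Y => Nat.cast_nonneg _
  have hhn : ∀ Y : SmProjVar k, (0 : ℝ) ≤ hr P Y := fun Y => Nat.cast_nonneg _
  have hbase : 2 * C * Module.finrank Ω (P.H X) * hr P (X.selfProd n) ≤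
      (2 * C * Module.finrank Ω (P.H X) + 1 + Real.log 2 * Module.finrank Ω (P.H X)) *
        hr P (X.selfProd n) := by
    refine mul_le_mul_of_nonneg_right ?_ (hhn _)
    have := mul_nonneg hlog2.le (zero_le_one.trans hb)
    linarith
  rcases Nat.even_or_odd' n with ⟨l, rfl | rfl⟩
  · rcases Nat.eq_zero_or_pos l with rfl | hl
    · have h1 : (1 : ℝ) ≤ hr P (X.selfProd (2 * 0)) := by
        have h2 : nr P (X.selfProd (2 * 0)) ≤ hr P (X.selfProd (2 * 0)) := rdim_le _ _
        exact_mod_cast (hpt _).trans h2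
      have h3 : (nr P (X.selfProd (2 * 0)) : ℝ) ≤ Module.finrank Ω (P.H X) := by
        have h2 := nr_le_pow (P := P) X (2 * 0)
        rw [mul_zero, zero_add, pow_one] at h2
        exact_mod_cast h2
      have h4 : Real.log (((2 * 0 : ℕ) : ℝ) + 2) = Real.log 2 := by norm_num
      rw [h4]
      calc (nr P (X.selfProd (2 * 0)) : ℝ) * Real.log 2 ≤ (2 * C * Module.finrank Ω (P.H X) + 1 +
            Real.log 2 * Module.finrank Ω (P.H X)) * 1 := by
            have h5 : 0 ≤ 2 * C * Module.finrank Ω (P.H X) := by positivity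
            have h6 := mul_le_mul_of_nonneg_right h3 hlog2.le
            nlinarith
        _ ≤ _ := by
            refine mul_le_mul_of_nonneg_left h1 ?_
            have := mul_nonneg hlog2.le (zero_le_one.trans hb)
            positivity
    · obtain ⟨l, rfl⟩ : ∃ l', l = l' + 1 := ⟨l - 1, by omega⟩
      have h5 := hr_le_succ (P := P) X (2 * l + 1)
      have e5 : 2 * l + 1 + 1 = 2 * (l + 1) := by ring
      rw [e5] at h5
      have h5' : (hr P (X.selfProd (2 * l + 1)) : ℝ) ≤ hr P (X.selfProd (2 * (l + 1))) := by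
        exact_mod_cast h5
      have h6 : (nr P (X.selfProd (2 * (l + 1))) : ℝ) ≤ Module.finrank Ω (P.H X) *
          nr P (X.selfProd (2 * l + 1)) := by exact_mod_cast odd_le X l
      have h7 := hlog l (2 * (l + 1)) (by omega)
      have h8 := h l
      have h9 : 0 ≤ Real.log ((l : ℝ) + 2) := Real.log_nonneg (by
        have : (0 : ℝ) ≤ l := Nat.cast_nonneg l
        linarith)
      refine le_trans ?_ hbase
      calc (nr P (X.selfProd (2 * (l + 1))) : ℝ) * Real.log (((2 * (l + 1) : ℕ) : ℝ) + 2)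
          ≤ (Module.finrank Ω (P.H X) * nr P (X.selfProd (2 * l + 1))) *
            (2 * Real.log (l + 2)) := by
            refine mul_le_mul h6 h7 ?_ (by positivity)
            exact Real.log_nonneg (by
              have : (0 : ℝ) ≤ ((2 * (l + 1) : ℕ) : ℝ) := Nat.cast_nonneg _
              linarith)
        _ = 2 * Module.finrank Ω (P.H X) * (nr P (X.selfProd (2 * l + 1)) *
            Real.log (l + 2)) := by ring
        _ ≤ 2 * Module.finrank Ω (P.H X) * (C * hr P (X.selfProd (2 * l + 1))) := by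
            refine mul_le_mul_of_nonneg_left h8 (by positivity)
        _ = 2 * C * Module.finrank Ω (P.H X) * hr P (X.selfProd (2 * l + 1)) := by ring
        _ ≤ _ := mul_le_mul_of_nonneg_left h5' (by positivity)
  · have h7 := hlog l (2 * l + 1) (by omega)
    have h8 := h l
    refine le_trans ?_ hbase
    calc (nr P (X.selfProd (2 * l + 1)) : ℝ) * Real.log (((2 * l + 1 : ℕ) : ℝ) + 2)
        ≤ nr P (X.selfProd (2 * l + 1)) * (2 * Real.log (l + 2)) :=
          mul_le_mul_of_nonneg_left h7 (hnn _)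
      _ = 2 * (nr P (X.selfProd (2 * l + 1)) * Real.log (l + 2)) := by ring
      _ ≤ 2 * (C * hr P (X.selfProd (2 * l + 1))) := by linarith
      _ = 2 * C * 1 * hr P (X.selfProd (2 * l + 1)) := by ring
      _ ≤ 2 * C * Module.finrank Ω (P.H X) * hr P (X.selfProd (2 * l + 1)) := by
          refine mul_le_mul_of_nonneg_right ?_ (hhn _)
          exact mul_le_mul_of_nonneg_left hb (by positivity)

end Pool.Agent.Helper13.ZP

namespace Pool.Agent.Helper13.ZP

open Pool.Agent.Helper10 Pool.Agent.Helper11.Iso SmProjVar SPre Pool.Agent.Helper34.ZP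

/-- **Uniform rate**: if `D` fails for `X ^ (r + 1)`, the ratio of the ranks tends to infinity at
least like a logarithm, with a constant which depends only on `b = dim H(X)` and `r`. -/
theorem zop_uniform (hUR : UniformRate) (b r : ℕ) : ∃ C : ℝ, 0 < C ∧
    ∀ (k : Type u) [Field k] (K : Type t) [Field K] (Ω : Type v) [Field Ω] [Algebra K Ω]
      [CharZero Ω] (P : SPre.{u, v, w, t} k K Ω), (∀ Y, 1 ≤ nr P Y) → ∀ X : SmProjVar k,
        Module.finrank Ω (P.H X) = b → ¬ P.D (X.selfProd r) → ∀ n : ℕ,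
          (nr P (X.selfProd n) : ℝ) * Real.log (n + 2) ≤ C * hr P (X.selfProd n) := by
  rcases Nat.eq_zero_or_pos b with rfl | hb
  · refine ⟨1, one_pos, ?_⟩
    intro k _ K _ Ω _ _ _ P hpt X hX
    have h := one_le_finrank hpt X
    omega
  · obtain ⟨C, hC, h⟩ := hUR b (b ^ 2) (r + 1) hb (by omega)
    refine ⟨2 * C * b + 1 + Real.log 2 * b, ?_, ?_⟩
    · have := Real.log_pos one_lt_two
      positivity
    · intro k _ K _ Ω _ _ _ P hpt X hX hD n
      have h1 := all_of_even hpt X hC (h (fun l => hr P (X.selfProd (2 * l + 1)))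
        (fun l => nr P (X.selfProd (2 * l + 1))) (fun l => hpt _)
        (fun l => by
          have h2 := nr_le_pow (P := P) X (2 * l + 1)
          rwa [hX, show 2 * l + 1 + 1 = 2 * (l + 1) by ring] at h2)
        (even_conv X) (fun l => by
          have h2 := even_growth hpt X l
          rwa [hX] at h2)
        (fun I => by
          have h2 := even_data' X hD I
          rwa [hX] at h2)) n
      rwa [hX] at h1

end Pool.Agent.Helper13.ZP
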