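import Mathlib
import Pool.Agent.Helper13.ZP.Unif
import Pool.Agent.Helper47.ZP.Uniform

/-!
# The zero-one law: a rate which depends only on the Betti number and on the power
-/

universe u v w t

open CategoryTheory TensorProduct

namespace Pool.Agent.Helper13.ZP

open Pool.Agent.Helper10 Pool.Agent.Helper11.Iso SmProjVar SPre Pool.Agent.Helper34.ZP

theorem uniformRate : UniformRate := fun b d s hb hs => by
  obtain ⟨C, hC, h⟩ := Pool.Agent.Helper47.ZP.uniform_rate b d s hb hs
  exact ⟨C, hC, fun a c h1 h2 h3 h4 h5 => h a c h1 h2 h3 h4 h5⟩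

/-- **Uniform rate**: if `D` fails for `X ^ (r + 1)`, the ratio of the homological and the numerical
rank of `X ^ (n + 1)` tends to infinity at least like a logarithm, with a constant which depends
only on `b ≥ dim H(X)` and `r`. -/
theorem zop_uniform_le (b r : ℕ) : ∃ C : ℝ, 0 < C ∧
    ∀ (k : Type u) [Field k] (K : Type t) [Field K] (Ω : Type v) [Field Ω] [Algebra K Ω]
      [CharZero Ω] (P : SPre.{u, v, w, t} k K Ω), (∀ Y, 1 ≤ nr P Y) → ∀ X : SmProjVar k,
        Module.finrank Ω (P.H X) ≤ b → ¬ P.D (X.selfProd r) → ∀ n : ℕ,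
          (nr P (X.selfProd n) : ℝ) * Real.log (n + 2) ≤ C * hr P (X.selfProd n) := by
  choose C hC h using fun b' => zop_uniform.{u, v, w, t} uniformRate b' r
  refine ⟨∑ b' ∈ Finset.range (b + 1), C b', Finset.sum_pos (fun b' _ => hC b')
    ⟨0, Finset.mem_range.2 (Nat.succ_pos b)⟩, ?_⟩
  intro k _ K _ Ω _ _ _ P hpt X hX hD n
  refine (h _ k K Ω P hpt X rfl hD n).trans (mul_le_mul_of_nonneg_right ?_ (Nat.cast_nonneg _))
  exact Finset.single_le_sum (f := C) (fun i _ => (hC i).le)
    (Finset.mem_range.2 (Nat.lt_succ_of_le hX))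

/-- **One power is enough**: for all `b`, `r` and `ε > 0` there is `m₀` such that for all fields,
all theories and all `X` with `dim H(X) ≤ b`, if for one `m ≥ m₀` the numerical rank of
`X ^ (m + 1)` is at least `ε` times the homological rank, then `D` holds for `X ^ (r + 1)`. -/
theorem one_power (b r : ℕ) {ε : ℝ} (hε : 0 < ε) : ∃ m₀ : ℕ,
    ∀ (k : Type u) [Field k] (K : Type t) [Field K] (Ω : Type v) [Field Ω] [Algebra K Ω]
      [CharZero Ω] (P : SPre.{u, v, w, t} k K Ω), (∀ Y, 1 ≤ nr P Y) → ∀ X : SmProjVar k,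
        Module.finrank Ω (P.H X) ≤ b → ∀ m ≥ m₀,
          ε * hr P (X.selfProd m) ≤ nr P (X.selfProd m) → P.D (X.selfProd r) := by
  obtain ⟨C, hC, h⟩ := zop_uniform_le.{u, v, w, t} b r
  obtain ⟨m₀, hm₀⟩ := exists_nat_gt (Real.exp (C / ε))
  refine ⟨m₀, ?_⟩
  intro k _ K _ Ω _ _ _ P hpt X hX m hm hr'
  by_contra hD
  have h1 := h k K Ω P hpt X hX hD m
  have h2 : (1 : ℝ) ≤ hr P (X.selfProd m) := by
    have h2 : nr P (X.selfProd m) ≤ hr P (X.selfProd m) := rdim_le _ _
    exact_mod_cast (hpt _).trans h2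
  have h3 : Real.exp (C / ε) < (m : ℝ) + 2 := by
    have h4 : ((m₀ : ℕ) : ℝ) ≤ m := by exact_mod_cast hm
    linarith
  have h4 : C / ε < Real.log (m + 2) := by
    rw [← Real.log_exp (C / ε)]
    exact Real.log_lt_log (Real.exp_pos _) h3
  have h5 : C < ε * Real.log (m + 2) := by
    rw [div_lt_iff₀ hε] at h4
    linarith
  have h6 : 0 < Real.log ((m : ℝ) + 2) := (div_pos hC hε).trans h4
  have h7 : ε * hr P (X.selfProd m) * Real.log (m + 2) ≤
      nr P (X.selfProd m) * Real.log (m + 2) := mul_le_mul_of_nonneg_right hr' h6.le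
  have h8 : C * hr P (X.selfProd m) < ε * Real.log (m + 2) * hr P (X.selfProd m) :=
    mul_lt_mul_of_pos_right h5 (by linarith)
  nlinarith

end Pool.Agent.Helper13.ZP
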