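import Mathlib
import Pool.Agent.Helper34.ZP.G2
import Pool.Agent.Helper34.ZP.P2
import Pool.Agent.Helper34.ZP.Nil
import Pool.Agent.Helper11.Iso.Residual

/-!
# Algebraic parity involutions and nilpotence of numerically trivial correspondences
-/

universe u v w t

open CategoryTheory TensorProduct

namespace Pool.Agent.Helper13.ZP

open Pool.Agent.Helper10 Pool.Agent.Helper11.Iso SmProjVar SPre Pool.Agent.Helper34.ZP

variable {k : Type u} [Field k] {K : Type t} [Field K] {Ω : Type v} [Field Ω] [Algebra K Ω]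
  {P : SPre.{u, v, w, t} k K Ω}

lemma par_pull {X Y : SmProjVar k} (f : X.toOver ⟶ Y.toOver) (y : P.H Y) :
    par P X (P.pull f y) = P.pull f (par P Y y) := by
  obtain ⟨a, ha, b, hb, rfl⟩ := P.exists_decomp Y y
  rw [map_add, map_add, par_ev (P.pull_ev _ _ ha), par_od (P.pull_od _ _ hb), map_add, par_ev ha,
    par_od hb, map_add, map_neg]

/-- the parity involution of a product -/
lemma par_prod (X Y : SmProjVar k) :
    par P (X.prod Y) = tmap (par P X) (par P Y) := by
  refine hom_ext_ext fun x y => ?_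
  rw [tmap_ext, SPre.ext, SPre.ext, par_mul, par_pull, par_pull]

/-- if the parity involution of `X` is algebraic, those of its powers are -/
lemma par_selfProd_mem {X : SmProjVar k} (hX : par P X ∈ Mor P X X) (l : ℕ) :
    par P (X.selfProd l) ∈ Mor P (X.selfProd l) (X.selfProd l) := by
  induction l with
  | zero => exact hX
  | succ l ih =>
    have h := tmap_mem_Mor ih hX
    rw [← par_prod] at h
    exact h

/-- if the parity involution is algebraic, numerically trivial correspondences are nilpotent -/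
theorem isNilpotent_of_par [CharZero Ω] {V : SmProjVar k} (hV : par P V ∈ Mor P V V)
    {x : P.H V →ₗ[Ω] P.H V} (hx : x ∈ Nul P V V) : IsNilpotent (x : Module.End Ω (P.H V)) := by
  by_contra hnil
  have := P.fin V
  have hx1 : (x : Module.End Ω (P.H V)) ∈ nul (par P V) (Subalgebra.toSubmodule (P.corrAlg V))
      (Subalgebra.toSubmodule (P.corrAlg V)) := by
    rw [nul_corrAlg]
    exact hx
  obtain ⟨e, he, hee, hrk, hne⟩ := exists_idem_of_not_nil (P.corrAlg V) (par P V)
    (fun y hy => G1_par_comm (f := y) hy) hx1 hnil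
  rw [nul_corrAlg] at hne
  have h1 : LinearMap.trace Ω (P.H V) (par P V ∘ₗ ((1 : Module.End Ω (P.H V)) - e) ∘ₗ par P V) = 0 :=
    hne.2 _ hV
  have h2 : LinearMap.trace Ω (P.H V) ((1 : Module.End Ω (P.H V)) - e) = 0 := by
    rw [← h1, ← LinearMap.comp_assoc, LinearMap.trace_comp_comm', ← LinearMap.comp_assoc,
      G1_par_par, LinearMap.id_comp]
  have hid : IsIdempotentElem (1 - e : Module.End Ω (P.H V)) :=
    IsIdempotentElem.one_sub hee
  have h3 := (LinearMap.IsIdempotentElem.isProj_range _ hid).trace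
  rw [h2] at h3
  have h4 : Module.finrank Ω (LinearMap.range (1 - e : Module.End Ω (P.H V))) = 0 := by
    exact_mod_cast h3.symm
  rw [Submodule.finrank_eq_zero] at h4
  have h5 : (1 - e : Module.End Ω (P.H V)) = 0 := LinearMap.range_eq_bot.1 h4
  have h6 : e = 1 := (sub_eq_zero.mp h5).symm
  rw [h6] at hrk
  have h7 : LinearMap.range (1 : Module.End Ω (P.H V)) = ⊤ := LinearMap.range_id
  rw [h7, finrank_top] at hrk
  exact lt_irrefl _ hrk

/-- for all powers -/
theorem nil_of_par [CharZero Ω] {X : SmProjVar k} (hX : par P X ∈ Mor P X X) (l : ℕ) :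
    ∀ x ∈ Nul P (X.selfProd l) (X.selfProd l),
      IsNilpotent (x : Module.End Ω (P.H (X.selfProd l))) :=
  fun _ hx => isNilpotent_of_par (par_selfProd_mem hX l) hx

/-- the numerical rank is large if the parity involution is algebraic -/
theorem par_growth [CharZero Ω] {X : SmProjVar k} (hX : par P X ∈ Mor P X X) (l : ℕ) :
    Module.finrank Ω (P.H X) ^ (2 * (l + 1)) ≤ nr P (X.selfProd (2 * l + 1)) *
      (l + 2) ^ (Module.finrank Ω (P.H X) ^ 2) :=
  nil_growth X l (nil_of_par hX l)

end Pool.Agent.Helper13.ZP
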