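import Mathlib
import Pool.Agent.Helper34.ZP.G8
import Pool.Agent.Helper34.ZP.NilLaw
import Pool.Agent.Helper4.HL.Uni

/-!
# The ratio of the ranks is one, polynomial or exponential
-/

universe u v w t

open CategoryTheory TensorProduct Filter Topology

namespace Pool.Agent.Helper13.ZP

open Pool.Agent.Helper10 Pool.Agent.Helper11.Iso SmProjVar SPre Pool.Agent.Helper34.ZP

lemma poly_le_exp (d : ℕ) {θ : ℝ} (hθ : 1 < θ) :
    ∃ C : ℝ, 0 < C ∧ ∀ m : ℕ, ((m : ℝ) + 2) ^ d ≤ C * θ ^ m := by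
  have h := (tendsto_pow_const_div_const_pow_of_one_lt d hθ).bddAbove_range
  obtain ⟨B, hB⟩ := h
  have h0 : 0 < θ := one_pos.trans hθ
  refine ⟨(|B| + 1) * θ ^ 2, by positivity, fun m => ?_⟩
  have h1 := hB ⟨m + 2, rfl⟩
  simp only at h1
  rw [div_le_iff₀ (by positivity)] at h1
  push_cast at h1
  calc ((m : ℝ) + 2) ^ d ≤ B * θ ^ (m + 2) := h1
    _ ≤ (|B| + 1) * θ ^ (m + 2) := by
        refine mul_le_mul_of_nonneg_right ?_ (by positivity)
        linarith [le_abs_self B]
    _ = (|B| + 1) * θ ^ 2 * θ ^ m := by ring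

variable {k : Type u} [Field k] {K : Type t} [Field K] {Ω : Type v} [Field Ω] [Algebra K Ω]
  {P : SPre.{u, v, w, t} k K Ω}

lemma hr_le_pow (X : SmProjVar k) (m : ℕ) :
    hr P (X.selfProd m) ≤ Module.finrank Ω (P.H X) ^ (m + 1) := by
  have := P.fin (X.selfProd m)
  rw [← finrank_selfProd]
  exact Submodule.finrank_le _

/-- the space of algebraic classes is large -/
lemma pow_le_hr [CharZero Ω] (hpt : ∀ Y, 1 ≤ nr P Y) (X : SmProjVar k) (m : ℕ) :
    Module.finrank Ω (P.H X) ^ m ≤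
      hr P (X.selfProd m) * (m + 2) ^ (Module.finrank Ω (P.H X) ^ 2) := by
  have hb := one_le_finrank hpt X
  rcases Nat.even_or_odd' m with ⟨l, rfl | rfl⟩
  · rcases Nat.eq_zero_or_pos l with rfl | hl
    · have h1 : nr P (X.selfProd (2 * 0)) ≤ hr P (X.selfProd (2 * 0)) := rdim_le _ _
      have h2 := hpt (X.selfProd (2 * 0))
      rw [mul_zero, pow_zero]
      exact Nat.succ_le_of_lt (Nat.mul_pos (by rw [mul_zero] at h1 h2; omega) (by positivity))
    · obtain ⟨l, rfl⟩ : ∃ l', l = l' + 1 := ⟨l - 1, by omega⟩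
      have h1 := growth_pow (P := P) X l
      rw [hr_pow_prod_pow] at h1
      have e3 : l + l + 1 = 2 * l + 1 := by ring
      rw [e3] at h1
      refine h1.trans (Nat.mul_le_mul ?_ (Nat.pow_le_pow_left (by omega) _))
      have h5 := hr_le_succ (P := P) X (2 * l + 1)
      have e5 : 2 * l + 1 + 1 = 2 * (l + 1) := by ring
      rwa [e5] at h5
  · have h1 := growth_pow (P := P) X l
    rw [hr_pow_prod_pow] at h1
    have e3 : l + l + 1 = 2 * l + 1 := by ring
    rw [e3] at h1
    refine (Nat.pow_le_pow_right hb (by omega)).trans (h1.trans ?_)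
    exact Nat.mul_le_mul_left _ (Nat.pow_le_pow_left (by omega) _)

/-- the numerical rank is large if numerically trivial self-correspondences are nilpotent -/
lemma pow_le_nr [CharZero Ω] (hpt : ∀ Y, 1 ≤ nr P Y) (X : SmProjVar k)
    (hnil : ∀ i, ∀ x ∈ Nul P (X.selfProd i) (X.selfProd i),
      IsNilpotent (x : Module.End Ω (P.H (X.selfProd i)))) (m : ℕ) :
    Module.finrank Ω (P.H X) ^ m ≤
      nr P (X.selfProd m) * (m + 2) ^ (Module.finrank Ω (P.H X) ^ 2) := by
  have hb := one_le_finrank hpt X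
  rcases Nat.even_or_odd' m with ⟨l, rfl | rfl⟩
  · rcases Nat.eq_zero_or_pos l with rfl | hl
    · have h2 := hpt (X.selfProd (2 * 0))
      rw [mul_zero, pow_zero]
      exact Nat.succ_le_of_lt (Nat.mul_pos (by rw [mul_zero] at h2; omega) (by positivity))
    · obtain ⟨l, rfl⟩ : ∃ l', l = l' + 1 := ⟨l - 1, by omega⟩
      have h1 := nil_growth X l (hnil l)
      refine h1.trans (Nat.mul_le_mul ?_ (Nat.pow_le_pow_left (by omega) _))
      have h5 := nr_le_succ (P := P) X (2 * l + 1)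
      have e5 : 2 * l + 1 + 1 = 2 * (l + 1) := by ring
      rwa [e5] at h5
  · have h1 := nil_growth X l (hnil l)
    refine (Nat.pow_le_pow_right hb (by omega)).trans (h1.trans ?_)
    exact Nat.mul_le_mul_left _ (Nat.pow_le_pow_left (by omega) _)

/-- **Trichotomy**: `D` holds for all powers of `X`; or the ratio of the homological and the
numerical rank of `X ^ (m + 1)` tends to infinity, but is at most polynomial; or it is exponential.
The third case is the existence of a numerically trivial self-correspondence of a power of `X`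
which is not nilpotent. -/
theorem trichotomy [CharZero Ω] (hpt : ∀ Y, 1 ≤ nr P Y) (X : SmProjVar k) :
    (P.DP X ∧ ∀ m, hr P (X.selfProd m) = nr P (X.selfProd m)) ∨
    (¬ P.DP X ∧ (∀ i, ∀ x ∈ Nul P (X.selfProd i) (X.selfProd i),
        IsNilpotent (x : Module.End Ω (P.H (X.selfProd i)))) ∧
      (∃ C : ℝ, 0 < C ∧ ∀ m : ℕ, (nr P (X.selfProd m) : ℝ) * Real.log (m + 2) ≤
        C * hr P (X.selfProd m)) ∧
      ∀ m : ℕ, hr P (X.selfProd m) ≤ Module.finrank Ω (P.H X) *
        (nr P (X.selfProd m) * (m + 2) ^ (Module.finrank Ω (P.H X) ^ 2))) ∨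
    ((¬ ∀ i, ∀ x ∈ Nul P (X.selfProd i) (X.selfProd i),
        IsNilpotent (x : Module.End Ω (P.H (X.selfProd i)))) ∧
      ∃ θ : ℝ, 1 < θ ∧ ∃ c : ℝ, 0 < c ∧ ∀ m : ℕ,
        c * θ ^ m * nr P (X.selfProd m) ≤ hr P (X.selfProd m)) := by
  by_cases hD : P.DP X
  · exact .inl ⟨hD, fun m => Pool.Agent.Helper4.HL.hr_eq_nr_of_D (hD m)⟩
  · by_cases hnil : ∀ i, ∀ x ∈ Nul P (X.selfProd i) (X.selfProd i),
        IsNilpotent (x : Module.End Ω (P.H (X.selfProd i)))
    · refine .inr (.inl ⟨hD, hnil, zop_rate hpt X hD, fun m => ?_⟩)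
      refine (hr_le_pow X m).trans ?_
      rw [pow_succ, mul_comm]
      exact Nat.mul_le_mul_left _ (pow_le_nr hpt X hnil m)
    · refine .inr (.inr ⟨hnil, ?_⟩)
      obtain ⟨ρ, hρ0, hρ, C, hC⟩ := nil_gap hpt X hnil
      set b : ℝ := (Module.finrank Ω (P.H X) : ℝ) with hb
      have hb0 : 0 < b := hρ0.trans hρ
      have hq : 1 < b / ρ := (one_lt_div hρ0).2 hρ
      set θ : ℝ := √(b / ρ) with hθ
      have hθ1 : 1 < θ := by
        rw [hθ, Real.lt_sqrt (by norm_num)]
        simpa using hq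
      have hθ2 : θ ^ 2 = b / ρ := Real.sq_sqrt (by positivity)
      obtain ⟨B, hB0, hB⟩ := poly_le_exp (Module.finrank Ω (P.H X) ^ 2) hθ1
      have hCp : 0 < |C| + 1 := by positivity
      refine ⟨θ, hθ1, ((|C| + 1) * ρ * B)⁻¹, by positivity, fun m => ?_⟩
      have h1 : (b : ℝ) ^ m ≤ hr P (X.selfProd m) *
          ((m : ℝ) + 2) ^ (Module.finrank Ω (P.H X) ^ 2) := by
        have := pow_le_hr hpt X m
        rw [hb]
        exact_mod_cast this
      have h2 : (nr P (X.selfProd m) : ℝ) ≤ (|C| + 1) * ρ ^ (m + 1) := by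
        refine (hC m).trans (mul_le_mul_of_nonneg_right ?_ (by positivity))
        linarith [le_abs_self C]
      have h3 : b ^ m = θ ^ m * θ ^ m * ρ ^ m := by
        rw [← mul_pow, ← mul_pow, ← pow_two, hθ2, div_mul_cancel₀ _ hρ0.ne']
      have h4 : θ ^ m * θ ^ m * ρ ^ m ≤ hr P (X.selfProd m) * (B * θ ^ m) := by
        rw [← h3]
        exact h1.trans (mul_le_mul_of_nonneg_left (hB m) (Nat.cast_nonneg _))
      have hθm : 0 < θ ^ m := by positivity
      have h5 : θ ^ m * ρ ^ m ≤ hr P (X.selfProd m) * B := by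
        have h6 : θ ^ m * (θ ^ m * ρ ^ m) ≤ θ ^ m * (hr P (X.selfProd m) * B) := by
          calc θ ^ m * (θ ^ m * ρ ^ m) = θ ^ m * θ ^ m * ρ ^ m := by ring
            _ ≤ hr P (X.selfProd m) * (B * θ ^ m) := h4
            _ = θ ^ m * (hr P (X.selfProd m) * B) := by ring
        exact le_of_mul_le_mul_left h6 hθm
      rw [mul_assoc, inv_mul_le_iff₀ (by positivity)]
      calc θ ^ m * (nr P (X.selfProd m) : ℝ) ≤ θ ^ m * ((|C| + 1) * ρ ^ (m + 1)) :=
            mul_le_mul_of_nonneg_left h2 hθm.le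
        _ = (|C| + 1) * ρ * (θ ^ m * ρ ^ m) := by ring
        _ ≤ (|C| + 1) * ρ * (hr P (X.selfProd m) * B) :=
            mul_le_mul_of_nonneg_left h5 (by positivity)
        _ = (|C| + 1) * ρ * B * hr P (X.selfProd m) := by ring

end Pool.Agent.Helper13.ZP
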